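import Mathlib
import Pool.Agent.H9.Lib.R_seed8.TH286.GT.GrowD

set_option autoImplicit false

/-! # Vectors of algebraic integers as vectors of rational integers -/

namespace Pool.Agent.Y215.SK

open Finset NumberField
open Pool.Agent.TH286.GT.GrowD (sg sg_coe sg_inj)

/-- the basis of the ring of integers -/
noncomputable def om (K : Type) [Field K] [NumberField K] :
    Module.Basis (Fin (Module.finrank ℤ (𝓞 K))) ℤ (𝓞 K) := Module.finBasis ℤ (𝓞 K)

/-- the columns -/
noncomputable def ec (K : Type) [Field K] [NumberField K] (m : ℕ) :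
    Fin (m * Module.finrank ℤ (𝓞 K)) ≃ Fin m × Fin (Module.finrank ℤ (𝓞 K)) :=
  finProdFinEquiv.symm

variable {K : Type} [Field K] [NumberField K] {m : ℕ}

/-- the vector of algebraic integers with coordinates `z` -/
noncomputable def vc (z : Fin (m * Module.finrank ℤ (𝓞 K)) → ℤ) (j : Fin m) : 𝓞 K :=
  ∑ b, z ((ec K m).symm (j, b)) • om K b

/-- the coordinates of a vector of algebraic integers -/
noncomputable def cv (X : Fin m → 𝓞 K) (l : Fin (m * Module.finrank ℤ (𝓞 K))) : ℤ :=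
  (om K).repr (X (ec K m l).1) (ec K m l).2

theorem vc_cv (X : Fin m → 𝓞 K) : vc (cv X) = X := by
  funext j
  unfold vc cv
  simp only [Equiv.apply_symm_apply]
  exact (om K).sum_repr (X j)

theorem cv_vc (z : Fin (m * Module.finrank ℤ (𝓞 K)) → ℤ) : cv (vc z) = z := by
  funext l
  unfold cv vc
  rw [map_sum, Finsupp.finsetSum_apply, Finset.sum_eq_single (ec K m l).2]
  · rw [map_smul, Finsupp.smul_apply, Module.Basis.repr_self, Finsupp.single_eq_same,
      smul_eq_mul, mul_one]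
    simp
  · intro b _ hb
    rw [map_smul, Finsupp.smul_apply, Module.Basis.repr_self, Finsupp.single_eq_of_ne (Ne.symm hb),
      smul_zero]
  · intro h
    exact absurd (Finset.mem_univ _) h

theorem vc_inj {z z' : Fin (m * Module.finrank ℤ (𝓞 K)) → ℤ} (h : vc (K := K) z = vc z') :
    z = z' := by
  rw [← cv_vc (K := K) z, h, cv_vc]

theorem cv_inj {X X' : Fin m → 𝓞 K} (h : cv X = cv X') : X = X' := by
  rw [← vc_cv X, h, vc_cv]

theorem vc_zero : vc (K := K) (m := m) 0 = 0 := by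
  funext j
  unfold vc
  simp

theorem vc_add (z z' : Fin (m * Module.finrank ℤ (𝓞 K)) → ℤ) :
    vc (K := K) (z + z') = vc z + vc z' := by
  funext j
  unfold vc
  simp only [Pi.add_apply, add_smul, Finset.sum_add_distrib]

theorem vc_smul (a : ℤ) (z : Fin (m * Module.finrank ℤ (𝓞 K)) → ℤ) :
    vc (K := K) (a • z) = a • vc z := by
  funext j
  unfold vc
  simp only [Pi.smul_apply, smul_eq_mul, mul_smul, Finset.smul_sum]

/-- `vc` as a linear map -/
noncomputable def vcL (K : Type) [Field K] [NumberField K] (m : ℕ) :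
    (Fin (m * Module.finrank ℤ (𝓞 K)) → ℤ) ≃ₗ[ℤ] (Fin m → 𝓞 K) where
  toFun := vc
  invFun := cv
  left_inv := cv_vc
  right_inv := vc_cv
  map_add' := vc_add
  map_smul' := vc_smul

/-- a linear form -/
noncomputable def rw' (σ : K ≃ₐ[ℚ] K) (a : Fin m → ℤ)
    (c : Fin (m * Module.finrank ℤ (𝓞 K))) : 𝓞 K :=
  (a (ec K m c).1 : 𝓞 K) * sg σ (om K (ec K m c).2)

theorem rw'_apply (σ : K ≃ₐ[ℚ] K) (a : Fin m → ℤ)
    (z : Fin (m * Module.finrank ℤ (𝓞 K)) → ℤ) :
    ∑ c, rw' σ a c * ((z c : ℤ) : 𝓞 K) = sg σ (∑ j, (a j : 𝓞 K) * vc z j) := by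
  rw [← Equiv.sum_comp (ec K m).symm, Fintype.sum_prod_type, map_sum]
  refine Finset.sum_congr rfl fun j _ => ?_
  unfold rw' vc
  rw [map_mul, map_sum, map_intCast, Finset.mul_sum]
  refine Finset.sum_congr rfl fun b _ => ?_
  rw [map_zsmul, Equiv.apply_symm_apply, zsmul_eq_mul]
  ring

theorem conj_indep (w : (K ≃ₐ[ℚ] K) → 𝓞 K) (h : ∀ b, ∑ σ, w σ * sg σ (om K b) = 0) :
    w = 0 := by
  classical
  have h1 : ∀ x : 𝓞 K, ∑ σ, w σ * sg σ x = 0 := by
    intro x
    rw [← (om K).sum_repr x]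
    simp_rw [map_sum, map_zsmul, Finset.mul_sum]
    rw [Finset.sum_comm]
    refine Finset.sum_eq_zero fun b _ => ?_
    simp_rw [mul_smul_comm]
    rw [← Finset.smul_sum, h b, smul_zero]
  let f : (K ≃ₐ[ℚ] K) → (𝓞 K →* K) := fun σ =>
    ((algebraMap (𝓞 K) K : 𝓞 K →+* K).comp (sg σ) : 𝓞 K →* K)
  have hf : Function.Injective f := by
    intro σ τ hστ
    ext x
    obtain ⟨a, b, hb, rfl⟩ := IsFractionRing.div_surjective (A := 𝓞 K) x
    have h2 : ∀ y : 𝓞 K, σ (y : K) = τ (y : K) := fun y => DFunLike.congr_fun hστ y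
    rw [map_div₀, map_div₀]
    exact congrArg₂ (· / ·) (h2 a) (h2 b)
  have hli := (linearIndependent_monoidHom (𝓞 K) K).comp f hf
  rw [Fintype.linearIndependent_iff] at hli
  have h3 := hli (fun σ => (w σ : K)) (by
    funext x
    have h4 := congrArg (fun y : 𝓞 K => (y : K)) (h1 x)
    simp only [Finset.sum_apply, Pi.smul_apply, smul_eq_mul, Function.comp_apply, Pi.zero_apply]
    rw [← map_zero (algebraMap (𝓞 K) K), ← h1 x, map_sum]
    refine Finset.sum_congr rfl fun σ _ => ?_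
    rw [map_mul]
    rfl)
  funext σ
  exact RingOfIntegers.ext (h3 σ)

variable [IsGalois ℚ K]

theorem card_aut : Fintype.card (K ≃ₐ[ℚ] K) = Module.finrank ℤ (𝓞 K) := by
  rw [RingOfIntegers.rank, ← Nat.card_eq_fintype_card, IsGalois.card_aut_eq_finrank]

/-- the rows -/
noncomputable def er (K : Type) [Field K] [NumberField K] [IsGalois ℚ K] (m : ℕ) :
    Fin (m * Module.finrank ℤ (𝓞 K)) ≃ Fin m × (K ≃ₐ[ℚ] K) :=
  (ec K m).trans (Equiv.prodCongr (Equiv.refl _) (Fintype.equivFinOfCardEq card_aut).symm)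

/-- a square matrix of linear forms is invertible if the forms for each conjugation are
independent -/
theorem det_ne_of_indep (a : Fin (m * Module.finrank ℤ (𝓞 K)) → Fin m → ℤ)
    (h : ∀ (σ : K ≃ₐ[ℚ] K) (v : Fin m → 𝓞 K),
      (∀ j, ∑ i, v i * (a ((er K m).symm (i, σ)) j : 𝓞 K) = 0) → v = 0) :
    (Matrix.of fun l c => rw' (K := K) ((er K m) l).2 (a l) c).det ≠ 0 := by
  classical
  intro hdet
  obtain ⟨v, hv, hv0⟩ := Matrix.exists_vecMul_eq_zero_iff.2 hdet
  apply hv
  have h1 : ∀ (j : Fin m) (b : Fin (Module.finrank ℤ (𝓞 K))),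
      ∑ σ, (∑ i, v ((er K m).symm (i, σ)) * (a ((er K m).symm (i, σ)) j : 𝓞 K)) *
        sg σ (om K b) = 0 := by
    intro j b
    have h2 := congrFun hv0 ((ec K m).symm (j, b))
    simp only [Matrix.vecMul, dotProduct, Matrix.of_apply, Pi.zero_apply] at h2
    rw [← Equiv.sum_comp (er K m).symm, Fintype.sum_prod_type, Finset.sum_comm] at h2
    rw [← h2]
    refine Finset.sum_congr rfl fun σ _ => ?_
    rw [Finset.sum_mul]
    refine Finset.sum_congr rfl fun i _ => ?_
    unfold rw'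
    rw [Equiv.apply_symm_apply, Equiv.apply_symm_apply]
    ring
  funext l
  obtain ⟨⟨i, σ⟩, rfl⟩ := (er K m).symm.surjective l
  have h2 := h σ (fun i => v ((er K m).symm (i, σ))) (fun j => by
    have h3 := conj_indep _ (h1 j)
    exact congrFun h3 σ)
  exact congrFun h2 i

end Pool.Agent.Y215.SK
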