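import Mathlib
import Pool.Agent.H9.Lib.R_seed8.Y215.SK.Lat
import Pool.Agent.H9.Lib.R_seed8.TH717.SK.LinA

set_option autoImplicit false
set_option linter.unusedSectionVars false
set_option linter.unusedSimpArgs false

/-! # The volume of the section of a lattice -/

namespace Pool.Agent.Y215.SK

open Finset NumberField
open Pool.Agent.TH286.GT.GrowD (sg sg_coe sg_inj)
open Pool.Agent.TH717.SK (real_rows)

variable {K : Type} [Field K] [NumberField K] [IsGalois ℚ K] {m : ℕ}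

/-- the coefficients of the forms: the form number `J σ` for the conjugation `σ` is replaced by
the sum of the coordinates -/
noncomputable def aJ (J : (K ≃ₐ[ℚ] K) → Fin m) (l : Fin (m * Module.finrank ℤ (𝓞 K))) : Fin m → ℤ :=
  if (er K m l).1 = J (er K m l).2 then fun _ => 1 else Pi.single (er K m l).1 1

/-- the forms -/
noncomputable def Wt (J : (K ≃ₐ[ℚ] K) → Fin m) :
    Matrix (Fin (m * Module.finrank ℤ (𝓞 K))) (Fin (m * Module.finrank ℤ (𝓞 K))) (𝓞 K) :=
  Matrix.of fun l c => rw' (er K m l).2 (aJ J l) c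

/-- the forms for the lattices -/
noncomputable def Mt (K : Type) [Field K] [NumberField K] [IsGalois ℚ K] (m : ℕ) :
    Matrix (Fin (m * Module.finrank ℤ (𝓞 K))) (Fin (m * Module.finrank ℤ (𝓞 K))) (𝓞 K) :=
  Matrix.of fun l c => rw' (er K m l).2 (Pi.single (er K m l).1 1) c

theorem Wt_det (J : (K ≃ₐ[ℚ] K) → Fin m) : (Wt J).det ≠ 0 := by
  classical
  refine det_ne_of_indep (aJ J) fun σ v hv => ?_
  have hJ : v (J σ) = 0 := by
    have h1 := hv (J σ)
    rw [Finset.sum_eq_single (J σ)] at h1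
    · unfold aJ at h1
      rw [Equiv.apply_symm_apply] at h1
      simpa using h1
    · intro i _ hi
      unfold aJ
      rw [Equiv.apply_symm_apply]
      simp [hi, Pi.single_apply, Ne.symm hi]
    · intro h
      exact absurd (Finset.mem_univ _) h
  funext j
  by_cases hj : j = J σ
  · rw [hj]
    exact hJ
  · have h1 := hv j
    rw [Finset.sum_eq_single j] at h1
    · unfold aJ at h1
      rw [Equiv.apply_symm_apply] at h1
      simpa [hj] using h1
    · intro i _ hi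
      by_cases hiJ : i = J σ
      · rw [hiJ, hJ, zero_mul]
      · unfold aJ
        rw [Equiv.apply_symm_apply]
        simp [hiJ, Pi.single_apply, Ne.symm hi]
    · intro h
      exact absurd (Finset.mem_univ _) h

theorem Mt_det : (Mt K m).det ≠ 0 := by
  classical
  refine det_ne_of_indep (fun l => Pi.single (er K m l).1 1) fun σ v hv => ?_
  funext j
  have h1 := hv j
  rw [Finset.sum_eq_single j] at h1
  · rw [Equiv.apply_symm_apply] at h1
    simpa using h1
  · intro i _ hi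
    rw [Equiv.apply_symm_apply]
    simp [Pi.single_apply, Ne.symm hi]
  · intro h
    exact absurd (Finset.mem_univ _) h

theorem Mt_apply (z : Fin (m * Module.finrank ℤ (𝓞 K)) → ℤ)
    (l : Fin (m * Module.finrank ℤ (𝓞 K))) :
    ∑ c, Mt K m l c * ((z c : ℤ) : 𝓞 K) = sg (er K m l).2 (vc z (er K m l).1) := by
  classical
  unfold Mt
  simp only [Matrix.of_apply]
  rw [rw'_apply]
  congr 1
  rw [Finset.sum_eq_single (er K m l).1]
  · simp
  · intro i _ hi
    simp [Pi.single_apply, hi]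
  · intro h
    exact absurd (Finset.mem_univ _) h

/-- the lattice is diagonal in the coordinates given by `Mt` -/
theorem Mt_Bt (u : Fin m → 𝓞 K) :
    Mt K m * (Bt u).map (Int.castRingHom (𝓞 K)) =
      Matrix.diagonal (fun l => sg (er K m l).2 (u (er K m l).1)) * Mt K m := by
  classical
  ext1 l c
  rw [Matrix.diagonal_mul, Matrix.mul_apply]
  have h1 := Mt_apply (K := K) (m := m) (fun l => Bt u l c) l
  have h2 := Mt_apply (K := K) (m := m) (Pi.single c 1) l
  rw [Bt_col, vc_cv, map_mul] at h1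
  have h3 : ∑ c', Mt K m l c' * (((Pi.single c 1 : Fin _ → ℤ) c' : ℤ) : 𝓞 K) = Mt K m l c := by
    rw [Finset.sum_eq_single c]
    · simp
    · intro i _ hi
      simp [Pi.single_apply, hi]
    · intro h
      exact absurd (Finset.mem_univ _) h
  rw [h3] at h2
  rw [h2, ← h1]
  refine Finset.sum_congr rfl fun c' _ => ?_
  rw [Matrix.map_apply]
  rfl

theorem Bt_det (u : Fin m → 𝓞 K) :
    (((Bt u).det : ℤ) : 𝓞 K) = ∏ l, sg (er K m l).2 (u (er K m l).1) := by
  classical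
  have h1 := congrArg Matrix.det (Mt_Bt u)
  have h2 : ((Bt u).map (Int.castRingHom (𝓞 K))).det = (((Bt u).det : ℤ) : 𝓞 K) := by
    have := (Int.castRingHom (𝓞 K)).map_det (Bt u)
    rw [eq_intCast] at this
    rw [this]
    rfl
  rw [Matrix.det_mul, Matrix.det_mul, Matrix.det_diagonal, h2, mul_comm] at h1
  exact mul_right_cancel₀ Mt_det h1

theorem Wt_apply (J : (K ≃ₐ[ℚ] K) → Fin m) (z : Fin (m * Module.finrank ℤ (𝓞 K)) → ℤ)
    (l : Fin (m * Module.finrank ℤ (𝓞 K))) :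
    ∑ c, Wt J l c * ((z c : ℤ) : 𝓞 K) =
      sg (er K m l).2 (if (er K m l).1 = J (er K m l).2 then ∑ j, vc z j
        else vc z (er K m l).1) := by
  classical
  unfold Wt
  simp only [Matrix.of_apply]
  rw [rw'_apply]
  congr 1
  unfold aJ
  by_cases h : (er K m l).1 = J (er K m l).2
  · rw [if_pos h, if_pos h]
    simp
  · rw [if_neg h, if_neg h, Finset.sum_eq_single (er K m l).1]
    · simp
    · intro i _ hi
      simp [Pi.single_apply, hi]
    · intro h
      exact absurd (Finset.mem_univ _) h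

/-- real forms -/
noncomputable def rho (cj : K ≃ₐ[ℚ] K) (iK : 𝓞 K)
    (S : Finset (Fin (m * Module.finrank ℤ (𝓞 K)))) (l : Fin (m * Module.finrank ℤ (𝓞 K)))
    (y : 𝓞 K) : 𝓞 K :=
  if l ∈ S then y + sg cj y else iK * (y - sg cj y)

theorem rho_sum {ι : Type} (s : Finset ι) (cj : K ≃ₐ[ℚ] K) (iK : 𝓞 K)
    (S : Finset (Fin (m * Module.finrank ℤ (𝓞 K)))) (l : Fin (m * Module.finrank ℤ (𝓞 K)))
    (y : ι → 𝓞 K) (z : ι → ℤ) :
    ∑ c ∈ s, rho cj iK S l (y c) * ((z c : ℤ) : 𝓞 K) =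
      rho cj iK S l (∑ c ∈ s, y c * ((z c : ℤ) : 𝓞 K)) := by
  unfold rho
  split_ifs
  · rw [map_sum, ← Finset.sum_add_distrib]
    refine Finset.sum_congr rfl fun c _ => ?_
    rw [map_mul, map_intCast]
    ring
  · rw [map_sum, ← Finset.sum_sub_distrib, Finset.mul_sum]
    refine Finset.sum_congr rfl fun c _ => ?_
    rw [map_mul, map_intCast]
    ring

theorem rho_zero (cj : K ≃ₐ[ℚ] K) (iK : 𝓞 K)
    (S : Finset (Fin (m * Module.finrank ℤ (𝓞 K)))) (l : Fin (m * Module.finrank ℤ (𝓞 K))) :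
    rho cj iK S l 0 = 0 := by
  unfold rho
  split_ifs <;> simp

/-- the real forms -/
noncomputable def Rt (cj : K ≃ₐ[ℚ] K) (iK : 𝓞 K) (J : (K ≃ₐ[ℚ] K) → Fin m)
    (S : Finset (Fin (m * Module.finrank ℤ (𝓞 K)))) :
    Matrix (Fin (m * Module.finrank ℤ (𝓞 K))) (Fin (m * Module.finrank ℤ (𝓞 K))) (𝓞 K) :=
  Matrix.of fun l c => rho cj iK S l (Wt J l c)

theorem Rt_apply (cj : K ≃ₐ[ℚ] K) (iK : 𝓞 K) (J : (K ≃ₐ[ℚ] K) → Fin m)
    (S : Finset (Fin (m * Module.finrank ℤ (𝓞 K)))) (z : Fin (m * Module.finrank ℤ (𝓞 K)) → ℤ)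
    (l : Fin (m * Module.finrank ℤ (𝓞 K))) :
    ∑ c, Rt cj iK J S l c * ((z c : ℤ) : 𝓞 K) = rho cj iK S l
      (sg (er K m l).2 (if (er K m l).1 = J (er K m l).2 then ∑ j, vc z j
        else vc z (er K m l).1)) := by
  rw [← Wt_apply]
  exact rho_sum _ cj iK S l _ _

theorem exists_Rt (cj : K ≃ₐ[ℚ] K) (iK : 𝓞 K) (hi : iK ≠ 0) (J : (K ≃ₐ[ℚ] K) → Fin m) :
    ∃ S : Finset (Fin (m * Module.finrank ℤ (𝓞 K))), (Rt cj iK J S).det ≠ 0 :=
  real_rows (sg cj) iK hi (by norm_num) (Wt J) (Wt_det J)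

section norms

variable (ψ : K →+* ℂ) (cj : K ≃ₐ[ℚ] K) (hcj : ∀ x, ψ (cj x) = (starRingEnd ℂ) (ψ x))
  (iK : 𝓞 K) (hi : ψ (iK : K) = Complex.I)

/-- the embedding of the integers -/
noncomputable def ph : 𝓞 K →+* ℂ := ψ.comp (algebraMap (𝓞 K) K)

omit [IsGalois ℚ K] in
include hcj in
theorem ph_cj (x : 𝓞 K) : ph ψ (sg cj x) = (starRingEnd ℂ) (ph ψ x) := hcj x

omit [IsGalois ℚ K] in
theorem ph_inj (x : 𝓞 K) (h : ph ψ x = 0) : x = 0 := by
  have h1 : ψ (x : K) = 0 := h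
  rw [map_eq_zero] at h1
  exact_mod_cast h1

include hcj hi in
theorem rho_norm (S : Finset (Fin (m * Module.finrank ℤ (𝓞 K))))
    (l : Fin (m * Module.finrank ℤ (𝓞 K))) (y : 𝓞 K) :
    ‖ph ψ (rho cj iK S l y)‖ ≤ 2 * ‖ph ψ y‖ := by
  unfold rho
  split_ifs
  · rw [map_add, ph_cj ψ cj hcj]
    refine (norm_add_le _ _).trans ?_
    rw [RCLike.norm_conj]
    linarith
  · rw [map_mul, map_sub, ph_cj ψ cj hcj, norm_mul]
    have h1 : ph ψ iK = Complex.I := hi
    rw [h1, Complex.norm_I, one_mul]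
    refine (norm_sub_le _ _).trans ?_
    rw [RCLike.norm_conj]
    linarith

include hcj hi in
theorem Rt_im (J : (K ≃ₐ[ℚ] K) → Fin m) (S : Finset (Fin (m * Module.finrank ℤ (𝓞 K))))
    (l c : Fin (m * Module.finrank ℤ (𝓞 K))) : (ph ψ (Rt cj iK J S l c)).im = 0 := by
  unfold Rt rho
  simp only [Matrix.of_apply]
  split_ifs
  · rw [map_add, ph_cj ψ cj hcj]
    simp
  · rw [map_mul, map_sub, ph_cj ψ cj hcj]
    have h1 : ph ψ iK = Complex.I := hi
    rw [h1]
    simp

end norms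

end Pool.Agent.Y215.SK
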