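import Mathlib
import Pool.Agent.H9.Lib.R_seed8.Y215.SK.Vol

set_option autoImplicit false
set_option linter.unusedSectionVars false
set_option linter.unusedSimpArgs false

/-! # The volume of the section of a lattice: the estimate -/

namespace Pool.Agent.Y215.SK

open Finset NumberField
open Pool.Agent.TH286.GT.GrowD (sg sg_coe sg_inj)

variable {K : Type} [Field K] [NumberField K] [IsGalois ℚ K] {m : ℕ}

theorem Rt_type2 (cj : K ≃ₐ[ℚ] K) (iK : 𝓞 K) (J : (K ≃ₐ[ℚ] K) → Fin m)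
    (S : Finset (Fin (m * Module.finrank ℤ (𝓞 K)))) (σ : K ≃ₐ[ℚ] K) (j : Fin m)
    (b : Fin (Module.finrank ℤ (𝓞 K))) :
    Rt cj iK J S ((er K m).symm (J σ, σ)) ((ec K m).symm (j, b)) =
      rho cj iK S ((er K m).symm (J σ, σ)) (sg σ (om K b)) := by
  unfold Rt Wt aJ rw'
  simp only [Matrix.of_apply, Equiv.apply_symm_apply, if_true, Int.cast_one, one_mul]

theorem sg_repr (σ : K ≃ₐ[ℚ] K) (s : 𝓞 K) :
    sg σ s = ∑ b, sg σ (om K b) * (((om K).repr s b : ℤ) : 𝓞 K) := by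
  have h1 : s = ∑ b, (om K).repr s b • om K b := ((om K).sum_repr s).symm
  calc sg σ s = sg σ (∑ b, (om K).repr s b • om K b) := congrArg _ h1
    _ = _ := by
      rw [map_sum]
      refine Finset.sum_congr rfl fun b _ => ?_
      rw [map_zsmul, zsmul_eq_mul, mul_comm]

/-- an integral point at which the forms of the second type are small has sum zero -/
theorem sum_zero_of_small (ψ : K →+* ℂ) (cj : K ≃ₐ[ℚ] K) (iK : 𝓞 K)
    (J : (K ≃ₐ[ℚ] K) → Fin m) (S : Finset (Fin (m * Module.finrank ℤ (𝓞 K))))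
    (hR : (Rt cj iK J S).det ≠ 0) :
    ∃ η : ℝ, 0 < η ∧ ∀ z : Fin (m * Module.finrank ℤ (𝓞 K)) → ℤ,
      (∀ l, (er K m l).1 = J (er K m l).2 →
        ‖ph ψ (∑ c, Rt cj iK J S l c * ((z c : ℤ) : 𝓞 K))‖ ≤ η) →
      ∑ j, vc (K := K) z j = 0 := by
  classical
  let g : Fin (Module.finrank ℤ (𝓞 K)) ≃ (K ≃ₐ[ℚ] K) := (Fintype.equivFinOfCardEq card_aut).symm
  let R2 : Matrix (Fin (Module.finrank ℤ (𝓞 K))) (Fin (Module.finrank ℤ (𝓞 K))) (𝓞 K) :=
    Matrix.of fun a b => rho cj iK S ((er K m).symm (J (g a), g a)) (sg (g a) (om K b))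
  have hR2 : R2.det ≠ 0 := by
    intro hdet
    obtain ⟨v, hv, hv0⟩ := Matrix.exists_vecMul_eq_zero_iff.2 hdet
    apply hR
    rw [← Matrix.exists_vecMul_eq_zero_iff]
    refine ⟨fun l => if (er K m l).1 = J (er K m l).2 then v (g.symm (er K m l).2) else 0, ?_, ?_⟩
    · intro h
      apply hv
      funext a
      have h1 := congrFun h ((er K m).symm (J (g a), g a))
      simpa using h1
    · funext c
      obtain ⟨⟨j, b⟩, rfl⟩ := (ec K m).symm.surjective c
      simp only [Matrix.vecMul, dotProduct, Pi.zero_apply]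
      rw [← Equiv.sum_comp (er K m).symm, Fintype.sum_prod_type, Finset.sum_comm]
      have h2 : ∀ σ : K ≃ₐ[ℚ] K, ∑ i : Fin m,
          (if (er K m ((er K m).symm (i, σ))).1 = J (er K m ((er K m).symm (i, σ))).2 then
            v (g.symm (er K m ((er K m).symm (i, σ))).2) else 0) *
            Rt cj iK J S ((er K m).symm (i, σ)) ((ec K m).symm (j, b)) =
          v (g.symm σ) * rho cj iK S ((er K m).symm (J σ, σ)) (sg σ (om K b)) := by
        intro σ
        rw [Finset.sum_eq_single (J σ)]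
        · rw [Equiv.apply_symm_apply, if_pos rfl, Rt_type2]
        · intro i _ hi
          rw [Equiv.apply_symm_apply, if_neg hi, zero_mul]
        · intro h
          exact absurd (Finset.mem_univ _) h
      simp_rw [h2]
      have h3 := congrFun hv0 b
      simp only [Matrix.vecMul, dotProduct, Pi.zero_apply] at h3
      rw [← h3, ← Equiv.sum_comp g]
      refine Finset.sum_congr rfl fun a _ => ?_
      rw [Equiv.symm_apply_apply]
      rfl
  -- the complex matrix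
  obtain ⟨Q, hQ⟩ : ∃ Q : Matrix (Fin (Module.finrank ℤ (𝓞 K)))
    (Fin (Module.finrank ℤ (𝓞 K))) ℂ, Q = R2.map (ph ψ) := ⟨_, rfl⟩
  have hQdet : Q.det ≠ 0 := by
    have h1 : Q.det = ph ψ R2.det := by
      rw [hQ]
      exact ((ph ψ).map_det R2).symm
    rw [h1]
    intro h
    exact hR2 (ph_inj ψ _ h)
  obtain ⟨A, hA⟩ : ∃ A : ℝ, A = ∑ b, ∑ a, ‖Q.adjugate b a‖ := ⟨_, rfl⟩
  have hA0 : 0 ≤ A := by
    rw [hA]
    exact Finset.sum_nonneg fun b _ => Finset.sum_nonneg fun a _ => norm_nonneg _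
  have hdpos : 0 < ‖Q.det‖ := norm_pos_iff.2 hQdet
  refine ⟨‖Q.det‖ / (2 * (A + 1)), by positivity, fun z hz => ?_⟩
  obtain ⟨s, hs⟩ : ∃ s : 𝓞 K, s = ∑ j, vc (K := K) z j := ⟨_, rfl⟩
  have hval : ∀ a, Q.mulVec (fun b => (((om K).repr s b : ℤ) : ℂ)) a =
      ph ψ (∑ c, Rt cj iK J S ((er K m).symm (J (g a), g a)) c * ((z c : ℤ) : 𝓞 K)) := by
    intro a
    rw [Rt_apply]
    have h1 : (er K m ((er K m).symm (J (g a), g a))) = (J (g a), g a) :=
      Equiv.apply_symm_apply _ _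
    rw [h1]
    simp only [if_true]
    rw [← hs]
    rw [sg_repr (g a) s, ← rho_sum, map_sum]
    show ∑ b, Q a b * (((om K).repr s b : ℤ) : ℂ) = _
    refine Finset.sum_congr rfl fun b _ => ?_
    rw [map_mul, map_intCast, hQ]
    rfl
  have hb : ∀ b, (om K).repr s b = 0 := by
    intro b
    have h1 : Q.det * (((om K).repr s b : ℤ) : ℂ) = ∑ a, Q.adjugate b a *
        Q.mulVec (fun b => (((om K).repr s b : ℤ) : ℂ)) a := by
      have h2 : Q.adjugate.mulVec (Q.mulVec (fun b => (((om K).repr s b : ℤ) : ℂ))) b =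
          Q.det * (((om K).repr s b : ℤ) : ℂ) := by
        rw [Matrix.mulVec_mulVec, Matrix.adjugate_mul, Matrix.smul_mulVec, Matrix.one_mulVec]
        rfl
      rw [← h2]
      rfl
    have h3 : ‖Q.det‖ * |((((om K).repr s b : ℤ)) : ℝ)| ≤ A * (‖Q.det‖ / (2 * (A + 1))) := by
      have h4 : ‖Q.det * (((om K).repr s b : ℤ) : ℂ)‖ =
          ‖Q.det‖ * |((((om K).repr s b : ℤ)) : ℝ)| := by
        rw [norm_mul, Complex.norm_intCast]
      rw [← h4, h1]
      refine (norm_sum_le _ _).trans ?_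
      have h5 : ∀ a ∈ (Finset.univ : Finset (Fin (Module.finrank ℤ (𝓞 K)))), ‖Q.adjugate b a *
          Q.mulVec (fun b => (((om K).repr s b : ℤ) : ℂ)) a‖ ≤
          ‖Q.adjugate b a‖ * (‖Q.det‖ / (2 * (A + 1))) := by
        intro a _
        rw [norm_mul, hval]
        refine mul_le_mul_of_nonneg_left (hz _ ?_) (norm_nonneg _)
        rw [Equiv.apply_symm_apply]
      refine (Finset.sum_le_sum h5).trans ?_
      rw [← Finset.sum_mul]
      refine mul_le_mul_of_nonneg_right ?_ (by positivity)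
      rw [hA]
      exact Finset.single_le_sum (f := fun b => ∑ a, ‖Q.adjugate b a‖)
        (fun b _ => Finset.sum_nonneg fun a _ => norm_nonneg _) (Finset.mem_univ b)
    have h6 : |((((om K).repr s b : ℤ)) : ℝ)| ≤ 1 / 2 := by
      have h7 : A * (‖Q.det‖ / (2 * (A + 1))) ≤ ‖Q.det‖ * (1 / 2) := by
        rw [mul_div_assoc', div_le_iff₀ (by positivity)]
        nlinarith
      exact le_of_mul_le_mul_left (h3.trans h7) hdpos
    by_contra hne
    have h8 := Int.one_le_abs hne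
    have h9 : (1 : ℝ) ≤ |((((om K).repr s b : ℤ)) : ℝ)| := by exact_mod_cast h8
    linarith
  rw [← hs]
  apply (om K).repr.injective
  ext b
  rw [hb b, map_zero]
  rfl

/-- the rows of the second type -/
noncomputable def T2 (J : (K ≃ₐ[ℚ] K) → Fin m) : Finset (Fin (m * Module.finrank ℤ (𝓞 K))) :=
  Finset.univ.filter fun l => (er K m l).1 = J (er K m l).2

theorem card_T2 (J : (K ≃ₐ[ℚ] K) → Fin m) : (T2 J).card = Module.finrank ℤ (𝓞 K) := by
  classical
  have h1 : T2 J = Finset.univ.image fun σ => (er K m).symm (J σ, σ) := by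
    ext l
    unfold T2
    rw [Finset.mem_filter, Finset.mem_image]
    constructor
    · rintro ⟨-, h⟩
      refine ⟨(er K m l).2, Finset.mem_univ _, ?_⟩
      rw [← h]
      exact (er K m).symm_apply_apply l
    · rintro ⟨σ, -, rfl⟩
      refine ⟨Finset.mem_univ _, ?_⟩
      rw [Equiv.apply_symm_apply]
  rw [h1, Finset.card_image_of_injective]
  · rw [Finset.card_univ, card_aut]
  · intro σ τ h
    have := (er K m).symm.injective h
    exact congrArg Prod.snd this

theorem exists_Cw (ψ : K →+* ℂ) : ∃ Cw : ℝ, 0 ≤ Cw ∧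
    (∀ (σ : K ≃ₐ[ℚ] K) b, ‖ph ψ (sg σ (om K b))‖ ≤ Cw) ∧
    ∀ σ : K ≃ₐ[ℚ] K, ∑ b, ‖ph ψ (sg σ (om K b))‖ ≤ Cw := by
  have h2 : ∀ σ : K ≃ₐ[ℚ] K, ∑ b, ‖ph ψ (sg σ (om K b))‖ ≤
      ∑ σ : K ≃ₐ[ℚ] K, ∑ b, ‖ph ψ (sg σ (om K b))‖ := fun σ =>
    Finset.single_le_sum (f := fun σ : K ≃ₐ[ℚ] K => ∑ b, ‖ph ψ (sg σ (om K b))‖)
      (fun _ _ => Finset.sum_nonneg fun _ _ => norm_nonneg _) (Finset.mem_univ σ)
  refine ⟨∑ σ : K ≃ₐ[ℚ] K, ∑ b, ‖ph ψ (sg σ (om K b))‖,
    Finset.sum_nonneg fun _ _ => Finset.sum_nonneg fun _ _ => norm_nonneg _, ?_, h2⟩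
  intro σ b
  exact (Finset.single_le_sum (f := fun b => ‖ph ψ (sg σ (om K b))‖)
    (fun _ _ => norm_nonneg _) (Finset.mem_univ b)).trans (h2 σ)

theorem num_aux {F p Pi Hn I dR dB dQ : ℝ} (hF : 0 ≤ F) (hp : 0 ≤ p) (hPi : 0 ≤ Pi)
    (hHn : 0 ≤ Hn) (hI : Hn ≤ I) (hdR : 0 < dR) (hBQ : dB ≤ dQ)
    (h : dR * dQ ≤ F * (Pi * (p * Hn))) : dB ≤ (F * p + 1) / dR * Pi * I := by
  rw [div_mul_eq_mul_div, div_mul_eq_mul_div, le_div_iff₀ hdR, mul_comm dB]
  calc dR * dB ≤ dR * dQ := mul_le_mul_of_nonneg_left hBQ hdR.le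
    _ ≤ F * (Pi * (p * Hn)) := h
    _ = (F * p) * Pi * Hn := by ring
    _ ≤ (F * p + 1) * Pi * I := by
      refine mul_le_mul ?_ hI hHn (by positivity)
      exact mul_le_mul_of_nonneg_right (by linarith) hPi

/-- the estimate of the volume -/
theorem volume (ψ : K →+* ℂ) (cj : K ≃ₐ[ℚ] K) (hcj : ∀ x, ψ (cj x) = (starRingEnd ℂ) (ψ x))
    (iK : 𝓞 K) (hi : ψ (iK : K) = Complex.I) (j0 : Fin m)
    (J : (K ≃ₐ[ℚ] K) → Fin m) (S : Finset (Fin (m * Module.finrank ℤ (𝓞 K))))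
    (hR : (Rt cj iK J S).det ≠ 0) (m' : ℕ)
    (hm' : m' + Module.finrank ℤ (𝓞 K) = m * Module.finrank ℤ (𝓞 K)) :
    ∃ C η : ℝ, 0 < C ∧ 0 < η ∧ ∀ u : Fin m → 𝓞 K, (∀ j, u j ≠ 0) →
      ∀ A : Fin (m * Module.finrank ℤ (𝓞 K)) → ℝ, (∀ l, 0 ≤ A l) → (∀ l ∈ T2 J, A l ≤ η) →
      ∀ z : Fin m' → Fin (m * Module.finrank ℤ (𝓞 K)) → ℤ, LinearIndependent ℤ z →
        (∀ i, ∃ z', z i = (Bt u).mulVec z') →
        (∀ i l, ‖ph ψ (∑ c, Rt cj iK J S l c * ((z i c : ℤ) : 𝓞 K))‖ ≤ A l) →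
        |((Bt u).det : ℝ)| ≤
          C * (∏ l ∈ (T2 J)ᶜ, A l) * Ideal.absNorm (Ideal.span (Set.range u)) := by
  classical
  obtain ⟨η, hη, hsmall⟩ := sum_zero_of_small ψ cj iK J S hR
  -- size of the conjugates of the basis
  obtain ⟨Cw, hCw0, hCwb, hCws⟩ := exists_Cw ψ
  have hRpos : 0 < ‖ph ψ (Rt cj iK J S).det‖ := by
    rw [norm_pos_iff]
    intro h
    exact hR (ph_inj ψ _ h)
  refine ⟨(((Nat.factorial (m * Module.finrank ℤ (𝓞 K)) : ℕ) : ℝ) *
    (2 * Cw * Cw) ^ (Module.finrank ℤ (𝓞 K)) + 1) / ‖ph ψ (Rt cj iK J S).det‖, η,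
    div_pos (add_pos_of_nonneg_of_pos (mul_nonneg (Nat.cast_nonneg _)
      (pow_nonneg (by positivity) _)) one_pos) hRpos, hη, ?_⟩
  intro u hu A hA hAη z hz hzB hzA
  -- the small element
  have hI : Ideal.span (Set.range u) ≠ ⊥ := by
    intro h
    have h1 : u j0 ∈ Ideal.span (Set.range u) := Ideal.subset_span ⟨j0, rfl⟩
    rw [h] at h1
    exact hu j0 h1
  obtain ⟨θ, hθI, hθ0, H, hH, hHb⟩ := exists_small_mem _ hI
  obtain ⟨w, hw⟩ := (Ideal.mem_span_range_iff_exists_fun).1 hθI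
  -- the sums of the `z i` vanish
  have hz0 : ∀ i, ∑ j, vc (K := K) (z i) j = 0 := by
    intro i
    refine hsmall (z i) fun l hl => (hzA i l).trans (hAη l ?_)
    unfold T2
    rw [Finset.mem_filter]
    exact ⟨Finset.mem_univ _, hl⟩
  -- the complementary vectors
  let y : Fin (Module.finrank ℤ (𝓞 K)) → Fin (m * Module.finrank ℤ (𝓞 K)) → ℤ := fun β => cv fun j => u j * (w j * om K β)
  have hy : ∀ β, ∑ j, vc (K := K) (y β) j = θ * om K β := by
    intro β
    show ∑ j, vc (cv fun j => u j * (w j * om K β)) j = _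
    rw [vc_cv, ← hw, Finset.sum_mul]
    refine Finset.sum_congr rfl fun j _ => ?_
    ring
  let e : Fin m' ⊕ Fin (Module.finrank ℤ (𝓞 K)) ≃ Fin (m * Module.finrank ℤ (𝓞 K)) := finSumFinEquiv.trans (finCongr hm')
  let Q : Matrix (Fin (m * Module.finrank ℤ (𝓞 K))) (Fin (m * Module.finrank ℤ (𝓞 K))) ℤ := Matrix.of fun l c => Sum.elim z y (e.symm c) l
  have hQcol : ∀ c, (fun l => Q l c) = Sum.elim z y (e.symm c) := fun c => rfl
  have hQdet : Q.det ≠ 0 := by
    intro hdet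
    obtain ⟨v, hv, hv0⟩ := Matrix.exists_mulVec_eq_zero_iff.2 hdet
    have h1 : ∑ i, v (e (Sum.inl i)) • z i + ∑ β, v (e (Sum.inr β)) • y β = 0 := by
      funext l
      have h2 := congrFun hv0 l
      simp only [Matrix.mulVec, dotProduct, Pi.zero_apply] at h2
      rw [← Equiv.sum_comp e, Fintype.sum_sum_type] at h2
      simp only [Pi.add_apply, Finset.sum_apply, Pi.smul_apply, smul_eq_mul, Pi.zero_apply]
      rw [← h2]
      congr 1
      · refine Finset.sum_congr rfl fun i _ => ?_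
        simp only [Q, Matrix.of_apply, Equiv.symm_apply_apply, Sum.elim_inl]
        ring
      · refine Finset.sum_congr rfl fun i _ => ?_
        simp only [Q, Matrix.of_apply, Equiv.symm_apply_apply, Sum.elim_inr]
        ring
    let sL : (Fin (m * Module.finrank ℤ (𝓞 K)) → ℤ) →ₗ[ℤ] 𝓞 K :=
      (∑ j, LinearMap.proj j) ∘ₗ (vcL K m).toLinearMap
    have hsL : ∀ x, sL x = ∑ j, vc (K := K) x j := by
      intro x
      simp only [sL, LinearMap.comp_apply, LinearMap.sum_apply, LinearMap.proj_apply]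
      rfl
    have h2 := congrArg sL h1
    rw [map_add, map_sum, map_sum, map_zero] at h2
    have hA1 : ∀ i, sL (v (e (Sum.inl i)) • z i) = 0 := fun i => by
      rw [map_smul, hsL, hz0, smul_zero]
    have hA2 : ∀ β, sL (v (e (Sum.inr β)) • y β) = v (e (Sum.inr β)) • (θ * om K β) :=
      fun β => by rw [map_smul, hsL, hy]
    simp only [hA1, hA2, Finset.sum_const_zero, zero_add] at h2
    have h3 : θ * ∑ β, v (e (Sum.inr β)) • om K β = 0 := by
      have h8 : ∑ β, v (e (Sum.inr β)) • (θ * om K β) = 0 := h2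
      rw [← h8, Finset.mul_sum]
      refine Finset.sum_congr rfl fun β _ => ?_
      exact mul_smul_comm (v (e (Sum.inr β))) θ (om K β)
    have h4 := (mul_eq_zero.1 h3).resolve_left hθ0
    have h5 := Fintype.linearIndependent_iff.1 (om K).linearIndependent _ h4
    have h6 : ∑ i, v (e (Sum.inl i)) • z i = 0 := by
      rw [← h1]
      simp only [h5, zero_smul, Finset.sum_const_zero, add_zero]
    have h7 := Fintype.linearIndependent_iff.1 hz _ h6
    apply hv
    funext c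
    obtain ⟨c', rfl⟩ := e.surjective c
    rcases c' with i | β
    · exact h7 i
    · exact h5 β
  have hlat : |(Bt u).det| ≤ |Q.det| := by
    refine det_le_of_lattice _ _ hQdet fun c => ?_
    rw [hQcol]
    rcases e.symm c with i | β
    · exact hzB i
    · refine ⟨cv fun j => w j * om K β, ?_⟩
      rw [Bt_mulVec, vc_cv]
      rfl
  -- the complex matrix
  let E : Matrix (Fin (m * Module.finrank ℤ (𝓞 K))) (Fin (m * Module.finrank ℤ (𝓞 K))) ℂ :=
    (Rt cj iK J S).map (ph ψ) * Q.map (fun a => (a : ℂ))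
  have hE : ∀ l c, E l c = ph ψ (∑ c', Rt cj iK J S l c' *
      ((Sum.elim z y (e.symm c) c' : ℤ) : 𝓞 K)) := by
    intro l c
    simp only [E, Matrix.mul_apply, Matrix.map_apply]
    rw [map_sum]
    refine Finset.sum_congr rfl fun c' _ => ?_
    rw [map_mul, map_intCast]
    rfl
  have hEdet : ‖E.det‖ = ‖ph ψ (Rt cj iK J S).det‖ * |(Q.det : ℝ)| := by
    have h1 : ((Rt cj iK J S).map (ph ψ)).det = ph ψ (Rt cj iK J S).det :=
      ((ph ψ).map_det _).symm
    have h2 : (Q.map (fun a => (a : ℂ))).det = ((Q.det : ℤ) : ℂ) :=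
      ((Int.castRingHom ℂ).map_det Q).symm
    simp only [E]
    rw [Matrix.det_mul, h1, h2, norm_mul, Complex.norm_intCast]
  let Cc : Finset (Fin (m * Module.finrank ℤ (𝓞 K))) := Finset.univ.image fun β : Fin (Module.finrank ℤ (𝓞 K)) => e (Sum.inr β)
  have hCc : Cc.card = Module.finrank ℤ (𝓞 K) := by
    rw [Finset.card_image_of_injective _ (fun a b h => Sum.inr_injective (e.injective h)),
      Finset.card_univ, Fintype.card_fin]
  have hleib := det_le_of_block E (T2 J) Cc (by rw [card_T2, hCc]) A (2 * Cw * Cw * H) hA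
    (by positivity)
    (by
      intro l hl c hc
      rw [hE]
      obtain ⟨c', rfl⟩ := e.surjective c
      rcases c' with i | β
      · rw [Equiv.symm_apply_apply, Sum.elim_inl, Rt_apply, if_pos (Finset.mem_filter.1 hl).2,
          hz0, map_zero, rho_zero, map_zero]
      · exact absurd (Finset.mem_image.2 ⟨β, Finset.mem_univ _, rfl⟩) hc)
    (by
      intro l _ c hc
      rw [hE]
      obtain ⟨c', rfl⟩ := e.surjective c
      rcases c' with i | β
      · rw [Equiv.symm_apply_apply, Sum.elim_inl]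
        exact hzA i l
      · exact absurd (Finset.mem_image.2 ⟨β, Finset.mem_univ _, rfl⟩) hc)
    (by
      intro l hl c hc
      rw [hE]
      obtain ⟨β, _, rfl⟩ := Finset.mem_image.1 hc
      rw [Equiv.symm_apply_apply, Sum.elim_inr, Rt_apply, if_pos (Finset.mem_filter.1 hl).2, hy]
      refine (rho_norm ψ cj hcj iK hi S l _).trans ?_
      rw [map_mul, map_mul, norm_mul]
      have h1 : ‖ph ψ (sg (er K m l).2 θ)‖ ≤ H * Cw := by
        rw [sg_repr, map_sum]
        refine (norm_sum_le _ _).trans ?_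
        have h2 : ∀ b ∈ (Finset.univ : Finset (Fin (Module.finrank ℤ (𝓞 K)))),
            ‖ph ψ (sg (er K m l).2 (om K b) * (((om K).repr θ b : ℤ) : 𝓞 K))‖ ≤
            H * ‖ph ψ (sg (er K m l).2 (om K b))‖ := by
          intro b _
          rw [map_mul, map_intCast, norm_mul, Complex.norm_intCast, mul_comm]
          exact mul_le_mul_of_nonneg_right (hHb b) (norm_nonneg _)
        refine (Finset.sum_le_sum h2).trans ?_
        rw [← Finset.mul_sum]
        exact mul_le_mul_of_nonneg_left (hCws _) (Nat.cast_nonneg _)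
      calc 2 * (‖ph ψ (sg (er K m l).2 θ)‖ * ‖ph ψ (sg (er K m l).2 (om K β))‖) ≤
          2 * ((H * Cw) * Cw) := by
            refine mul_le_mul_of_nonneg_left ?_ (by norm_num)
            exact mul_le_mul h1 (hCwb _ _) (norm_nonneg _) (by positivity)
        _ = 2 * Cw * Cw * H := by ring)
  rw [hEdet, card_T2] at hleib
  have hlat' : |((Bt u).det : ℝ)| ≤ |(Q.det : ℝ)| := by exact_mod_cast hlat
  have hPA : 0 ≤ ∏ l ∈ (T2 J)ᶜ, A l := Finset.prod_nonneg fun l _ => hA l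
  rw [mul_pow (2 * Cw * Cw)] at hleib
  exact num_aux (Nat.cast_nonneg _) (pow_nonneg (by positivity) _) hPA
    (pow_nonneg (Nat.cast_nonneg _) _) hH hRpos hlat' hleib

end Pool.Agent.Y215.SK
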