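import Mathlib
import Pool.Agent.H9.Lib.R_seed8.Y215.SK.SubJ

set_option autoImplicit false
set_option linter.unusedSectionVars false
set_option linter.unusedSimpArgs false

/-! # The subspace theorem for vanishing sums of units with small coefficients: one pattern -/

namespace Pool.Agent.Y215.SK

open Finset NumberField Filter
open Pool.Agent.TH286.GT.GrowD (sg sg_coe sg_inj)
open Pool.Agent.TH286.GT
open Pool.Agent.TH717.ST (subT pen)

variable {K : Type} [Field K] [NumberField K] [IsGalois ℚ K]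

/-- the logarithmic sizes -/
theorem sum_log_A {m : ℕ} (J : (K ≃ₐ[ℚ] K) → Fin m) (X : Fin m → (K ≃ₐ[ℚ] K) → ℝ)
    (hX : ∀ j σ, 0 < X j σ) (a b : ℝ) (m' : ℕ)
    (hm' : m' + Module.finrank ℤ (𝓞 K) = m * Module.finrank ℤ (𝓞 K)) :
    ∑ l : Fin (m * Module.finrank ℤ (𝓞 K)), Real.log (if l ∈ T2 J then Real.exp a else
        2 * Real.exp b * X (er K m l).1 (er K m l).2) =
      (Module.finrank ℤ (𝓞 K) : ℝ) * a + m' * (Real.log 2 + b) +
        ∑ l : Fin (m * Module.finrank ℤ (𝓞 K)), Real.log (X (er K m l).1 (er K m l).2) -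
        ∑ σ, Real.log (X (J σ) σ) := by
  classical
  have hlog : ∀ l : Fin (m * Module.finrank ℤ (𝓞 K)),
      Real.log (2 * Real.exp b * X (er K m l).1 (er K m l).2) =
      (Real.log 2 + b) + Real.log (X (er K m l).1 (er K m l).2) := by
    intro l
    have h1 := hX (er K m l).1 (er K m l).2
    rw [Real.log_mul (by positivity) h1.ne', Real.log_mul (by norm_num) (Real.exp_pos _).ne',
      Real.log_exp]
  rw [← Finset.sum_add_sum_compl (T2 J), ← T2_sum J (fun j σ => Real.log (X j σ)),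
    ← Finset.sum_add_sum_compl (T2 J) (fun l => Real.log (X (er K m l).1 (er K m l).2))]
  have h1 : ∑ l ∈ T2 J, Real.log (if l ∈ T2 J then Real.exp a else
      2 * Real.exp b * X (er K m l).1 (er K m l).2) = (Module.finrank ℤ (𝓞 K) : ℝ) * a := by
    rw [Finset.sum_congr rfl (fun l hl => by rw [if_pos hl, Real.log_exp]), Finset.sum_const,
      card_T2, nsmul_eq_mul]
  have hcc : ((T2 J)ᶜ.card : ℝ) = m' := by
    rw [Finset.card_compl, card_T2, Fintype.card_fin]
    have : m * Module.finrank ℤ (𝓞 K) - Module.finrank ℤ (𝓞 K) = m' := by omega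
    rw [this]
  have h2 : ∑ l ∈ (T2 J)ᶜ, Real.log (if l ∈ T2 J then Real.exp a else
      2 * Real.exp b * X (er K m l).1 (er K m l).2) = m' * (Real.log 2 + b) +
      ∑ l ∈ (T2 J)ᶜ, Real.log (X (er K m l).1 (er K m l).2) := by
    rw [Finset.sum_congr rfl (fun l hl => by
      rw [if_neg (Finset.mem_compl.1 hl), hlog]), Finset.sum_add_distrib, Finset.sum_const,
      nsmul_eq_mul, hcc]
  rw [h1, h2]
  ring

theorem subK_J (ψ : K →+* ℂ) (cj : K ≃ₐ[ℚ] K) (hcj : ∀ x, ψ (cj x) = (starRingEnd ℂ) (ψ x))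
    (iK : 𝓞 K) (hi : ψ (iK : K) = Complex.I) {m1 s : ℕ}
    (U : Fin s → 𝓞 K) (hU : ∀ v, U v ≠ 0) (J : (K ≃ₐ[ℚ] K) → Fin (m1 + 1)) (c1 : ℝ)
    (hc1 : 0 ≤ c1) (γ : ℝ) (hγ0 : 0 < γ)
    (hγ : γ * (8 * ((m1 * Module.finrank ℤ (𝓞 K) : ℕ) + 1)) ≤ 1) :
    ∃ N0 : ℝ, ∀ (k : ℕ → Fin (m1 + 1) → Fin s → ℕ) (c : ℕ → Fin (m1 + 1) → 𝓞 K) (N : ℕ → ℝ),
      Tendsto N atTop atTop → (∀ t, N0 ≤ N t) →
      (∀ t j σ, |Real.log ‖ph ψ (sg σ (uu U (k t) j))‖| ≤ c1 * N t) →
      (∀ t, N t ≤ ∑ σ, Real.log ‖ph ψ (sg σ (uu U (k t) (J σ)))‖ -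
        Real.log (Ideal.absNorm (Ideal.span (Set.range (uu U (k t)))))) →
      (∀ t j σ, ‖ph ψ (sg σ (c t j))‖ ≤ Real.exp (γ * N t)) →
      (∀ t, ∑ j, c t j * uu U (k t) j = 0) → (∀ t, c t ≠ 0) →
      ∃ f : Fin ((m1 + 1) * Module.finrank ℤ (𝓞 K)) → ℤ,
        (∃ i b, f ((ec K (m1 + 1)).symm (i, b)) ≠
          f ((ec K (m1 + 1)).symm (Fin.last m1, b))) ∧
        ∃ᶠ t in atTop, ∑ l, f l * cv (fun j => c t j * uu U (k t) j) l = 0 := by
  classical
  have hiK : iK ≠ 0 := by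
    intro h
    rw [h, RingOfIntegers.coe_eq_algebraMap, map_zero, map_zero] at hi
    exact Complex.I_ne_zero hi.symm
  obtain ⟨S, hS⟩ := exists_Rt cj iK hiK J
  have hmD : m1 * Module.finrank ℤ (𝓞 K) + Module.finrank ℤ (𝓞 K) =
      (m1 + 1) * Module.finrank ℤ (𝓞 K) := by ring
  obtain ⟨C1, η, hC1, hη, hvol⟩ := volume ψ cj hcj iK hi (Fin.last m1) J S hS
    (m1 * Module.finrank ℤ (𝓞 K)) hmD
  obtain ⟨m', hm'⟩ : ∃ m' : ℕ, m' = m1 * Module.finrank ℤ (𝓞 K) := ⟨_, rfl⟩
  obtain ⟨n, hn⟩ : ∃ n : ℝ, n = (((m1 + 1) * Module.finrank ℤ (𝓞 K) : ℕ) : ℝ) := ⟨_, rfl⟩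
  obtain ⟨D, hD⟩ : ∃ D : ℝ, D = ((Module.finrank ℤ (𝓞 K) : ℕ) : ℝ) := ⟨_, rfl⟩
  have hD0 : 0 ≤ D := by rw [hD]; exact Nat.cast_nonneg _
  have hn0 : 0 ≤ n := by rw [hn]; exact Nat.cast_nonneg _
  rw [← hm'] at hγ
  have hl2 : 0 < Real.log 2 := Real.log_pos (by norm_num)
  have hl2' : Real.log 2 ≤ 1 := by
    have := Real.log_two_lt_d9
    linarith
  have hm'0 : (0 : ℝ) ≤ m' := Nat.cast_nonneg _
  have hmγ : m' * γ ≤ 1 / 8 := by nlinarith
  have hγ8 : γ ≤ 1 / 8 := by nlinarith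
  refine ⟨1 + |Real.log η| / γ + 4 * (|Real.log C1| + m' * Real.log 2), ?_⟩
  intro k c N hN hN0 hlog hht hsm hsum hnz
  have hN1 : ∀ t, 1 ≤ N t := by
    intro t
    refine le_trans ?_ (hN0 t)
    have h1 : 0 ≤ |Real.log η| / γ := by positivity
    have h2 : 0 ≤ |Real.log C1| := abs_nonneg _
    have h3 : 0 ≤ m' * Real.log 2 := by positivity
    linarith
  have hNη : ∀ t, |Real.log η| ≤ γ * N t := by
    intro t
    have h1 : |Real.log η| / γ ≤ N t := by
      refine le_trans ?_ (hN0 t)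
      have h2 : 0 ≤ |Real.log C1| := abs_nonneg _
      have h3 : 0 ≤ m' * Real.log 2 := by positivity
      linarith
    rw [div_le_iff₀ hγ0] at h1
    linarith
  have hNC : ∀ t, 4 * (|Real.log C1| + m' * Real.log 2) + 1 ≤ N t := by
    intro t
    refine le_trans ?_ (hN0 t)
    have h1 : 0 ≤ |Real.log η| / γ := by positivity
    linarith
  have hXpos : ∀ t j σ, 0 < ‖ph ψ (sg σ (uu U (k t) j))‖ := by
    intro t j σ
    rw [norm_pos_iff]
    intro h
    have h1 := ph_inj ψ _ h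
    exact uu_ne U hU (k t) j (sg_inj σ (by rw [h1, map_zero]))
  -- the sizes
  let A : ℕ → Fin ((m1 + 1) * Module.finrank ℤ (𝓞 K)) → ℝ := fun t l =>
    if l ∈ T2 J then Real.exp (-(2 * γ * N t)) else
      2 * Real.exp (γ * N t) *
        ‖ph ψ (sg (er K (m1 + 1) l).2 (uu U (k t) (er K (m1 + 1) l).1))‖
  have hApos : ∀ t l, 0 < A t l := by
    intro t l
    show 0 < if l ∈ T2 J then _ else _
    have h1 := hXpos t (er K (m1 + 1) l).1 (er K (m1 + 1) l).2
    split_ifs
    · exact Real.exp_pos _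
    · exact mul_pos (mul_pos two_pos (Real.exp_pos _)) h1
  have hdet : ∀ t, Real.log |((Bt (uu U (k t))).det : ℝ)| =
      ∑ l, Real.log ‖ph ψ (sg (er K (m1 + 1) l).2 (uu U (k t) (er K (m1 + 1) l).1))‖ := by
    intro t
    rw [det_abs ψ, Real.log_prod]
    intro l _
    exact (hXpos t _ _).ne'
  have hsumA : ∀ t, ∑ l, Real.log (A t l) = D * (-(2 * γ * N t)) + m' * (Real.log 2 + γ * N t) +
      Real.log |((Bt (uu U (k t))).det : ℝ)| -
        ∑ σ, Real.log ‖ph ψ (sg σ (uu U (k t) (J σ)))‖ := by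
    intro t
    rw [hdet, hD, hm']
    exact sum_log_A J (fun j σ => ‖ph ψ (sg σ (uu U (k t) j))‖) (fun j σ => hXpos t j σ)
      (-(2 * γ * N t)) (γ * N t) (m1 * Module.finrank ℤ (𝓞 K)) hmD
  have hnorm1 : ∀ t, 0 ≤ Real.log (Ideal.absNorm (Ideal.span (Set.range (uu U (k t))))) := by
    intro t
    exact Real.log_natCast_nonneg _
  have hc2 : 1 ≤ n * c1 + c1 + 3 := by nlinarith [mul_nonneg hn0 hc1]
  have hLat : ∀ t, Lat (Mt K (m1 + 1)) (bet (lamU U)
      (fun p => k t (finProdFinEquiv.symm p).2 (finProdFinEquiv.symm p).1))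
      (Bt (uu U (k t))) := by
    intro t
    refine ⟨Bt_det_ne _ (uu_ne U hU (k t)), ?_⟩
    rw [bet_lamU]
    exact Mt_Bt _
  have hSize : ∀ t, SizeO (n * c1 + c1 + 3) γ (N t) (Bt (uu U (k t))) (A t) := by
    intro t
    have hN1t := hN1 t
    refine ⟨?_, hApos t, ?_, ?_⟩
    · rw [hdet]
      have h1 : ∑ l, Real.log ‖ph ψ (sg (er K (m1 + 1) l).2
          (uu U (k t) (er K (m1 + 1) l).1))‖ ≤ n * (c1 * N t) := by
        refine (Finset.sum_le_sum fun l _ => (le_abs_self _).trans (hlog t _ _)).trans ?_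
        rw [Finset.sum_const, Finset.card_univ, Fintype.card_fin, nsmul_eq_mul, hn]
      refine h1.trans ?_
      nlinarith [mul_nonneg hc1 (by linarith : 0 ≤ N t)]
    · intro l
      show |Real.log (if l ∈ T2 J then _ else _)| ≤ _
      have h0 : 0 ≤ n * c1 * N t := mul_nonneg (mul_nonneg hn0 hc1) (by linarith)
      split_ifs
      · rw [Real.log_exp, abs_neg, abs_of_nonneg (by nlinarith)]
        have h1 : 2 * γ * N t ≤ 1 * N t := mul_le_mul_of_nonneg_right (by linarith) (by linarith)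
        have h2 : 0 ≤ c1 * N t := mul_nonneg hc1 (by linarith)
        linarith
      · have hX := hXpos t (er K (m1 + 1) l).1 (er K (m1 + 1) l).2
        rw [Real.log_mul (by positivity) hX.ne', Real.log_mul (by norm_num)
          (Real.exp_pos _).ne', Real.log_exp]
        have h1 := hlog t (er K (m1 + 1) l).1 (er K (m1 + 1) l).2
        have h2 : γ * N t ≤ 1 * N t := mul_le_mul_of_nonneg_right (by linarith) (by linarith)
        have h3 : 0 ≤ γ * N t := mul_nonneg hγ0.le (by linarith)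
        rw [abs_le] at h1 ⊢
        constructor <;> nlinarith
    · rw [hsumA]
      have h1 := hht t
      have h2 := hnorm1 t
      have h3 := hNC t
      have h4 : 0 ≤ |Real.log C1| := abs_nonneg _
      have h5 : m' * γ * N t ≤ 1 / 8 * N t := mul_le_mul_of_nonneg_right hmγ (by linarith)
      have h6 : γ * N t ≤ 1 / 8 * N t := mul_le_mul_of_nonneg_right hγ8 (by linarith)
      have h7 : 0 ≤ D * (2 * γ * N t) := by
        have : 0 ≤ γ * N t := mul_nonneg hγ0.le (by linarith)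
        nlinarith
      nlinarith
  have hSol : ∀ t, SolO (ph ψ) (Rt cj iK J S) (Bt (uu U (k t))) (A t)
      (cv (fun j => c t j * uu U (k t) j)) := by
    intro t
    refine ⟨fun l => ?_, cv (c t), ?_⟩
    · rw [Rt_apply, vc_cv]
      by_cases hl : (er K (m1 + 1) l).1 = J (er K (m1 + 1) l).2
      · rw [if_pos hl, hsum t, map_zero, rho_zero, map_zero, norm_zero]
        exact (hApos t l).le
      · rw [if_neg hl]
        refine (rho_norm ψ cj hcj iK hi S l _).trans ?_
        have h1 : l ∉ T2 J := by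
          unfold T2
          rw [Finset.mem_filter]
          exact fun h => hl h.2
        show _ ≤ if l ∈ T2 J then _ else _
        rw [if_neg h1, map_mul, map_mul, norm_mul]
        have h2 := hsm t (er K (m1 + 1) l).1 (er K (m1 + 1) l).2
        have h3 := hXpos t (er K (m1 + 1) l).1 (er K (m1 + 1) l).2
        nlinarith [mul_le_mul_of_nonneg_right h2 h3.le]
    · rw [Bt_mulVec, vc_cv]
      congr 1
      funext j
      exact mul_comm _ _
  have hVol : ∀ t, ∀ z : Fin (m1 * Module.finrank ℤ (𝓞 K)) →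
      Fin ((m1 + 1) * Module.finrank ℤ (𝓞 K)) → ℤ, LinearIndependent ℤ z →
      (∀ i, ∃ z', z i = (Bt (uu U (k t))).mulVec z') →
      ∃ i l, Real.exp (γ * N t) * A t l <
        ‖ph ψ (∑ j, Rt cj iK J S l j * ((z i j : ℤ) : 𝓞 K))‖ := by
    intro t z hz hzB
    by_contra hcon
    push Not at hcon
    have hN1t := hN1 t
    have hNpos : 0 ≤ N t := by linarith
    have hv := hvol (uu U (k t)) (uu_ne U hU (k t)) (fun l => Real.exp (γ * N t) * A t l)
      (fun l => mul_nonneg (Real.exp_pos _).le (hApos t l).le)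
      (fun l hl => by
        show Real.exp (γ * N t) * (if l ∈ T2 J then _ else _) ≤ η
        rw [if_pos hl, ← Real.exp_add]
        have h1 : γ * N t + -(2 * γ * N t) = -(γ * N t) := by ring
        rw [h1, ← Real.le_log_iff_exp_le hη]
        have h2 := hNη t
        have h3 := neg_abs_le (Real.log η)
        linarith) z hz hzB hcon
    -- logarithms
    have hdpos : 0 < |((Bt (uu U (k t))).det : ℝ)| := by
      rw [abs_pos]
      exact_mod_cast Bt_det_ne _ (uu_ne U hU (k t))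
    have hIpos : (0 : ℝ) < Ideal.absNorm (Ideal.span (Set.range (uu U (k t)))) := by
      have h1 : Ideal.absNorm (Ideal.span (Set.range (uu U (k t)))) ≠ 0 := by
        rw [Ne, Ideal.absNorm_eq_zero_iff]
        intro h
        have h2 : uu U (k t) (Fin.last m1) ∈ Ideal.span (Set.range (uu U (k t))) :=
          Ideal.subset_span ⟨_, rfl⟩
        rw [h] at h2
        exact uu_ne U hU (k t) _ h2
      exact_mod_cast Nat.pos_of_ne_zero h1
    have hPpos : 0 < ∏ l ∈ (T2 J)ᶜ, (Real.exp (γ * N t) * A t l) :=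
      Finset.prod_pos fun l _ => mul_pos (Real.exp_pos _) (hApos t l)
    have h1 := Real.log_le_log hdpos hv
    rw [Real.log_mul (by positivity) hIpos.ne', Real.log_mul hC1.ne' hPpos.ne',
      Real.log_prod (fun l _ => (mul_pos (Real.exp_pos _) (hApos t l)).ne')] at h1
    have h2 : ∑ l ∈ (T2 J)ᶜ, Real.log (Real.exp (γ * N t) * A t l) =
        m' * (γ * N t) + (∑ l, Real.log (A t l) - D * (-(2 * γ * N t))) := by
      have h3 : ∀ l ∈ (T2 J)ᶜ, Real.log (Real.exp (γ * N t) * A t l) =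
          γ * N t + Real.log (A t l) := by
        intro l _
        rw [Real.log_mul (Real.exp_pos _).ne' (hApos t l).ne', Real.log_exp]
      have hcc : ((T2 J)ᶜ.card : ℝ) = m' := by
        rw [Finset.card_compl, card_T2, Fintype.card_fin]
        have : (m1 + 1) * Module.finrank ℤ (𝓞 K) - Module.finrank ℤ (𝓞 K) = m' := by omega
        rw [this]
      have h4 : ∑ l ∈ T2 J, Real.log (A t l) = D * (-(2 * γ * N t)) := by
        have h5 : ∀ l ∈ T2 J, Real.log (A t l) = -(2 * γ * N t) := by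
          intro l hl
          show Real.log (if l ∈ T2 J then _ else _) = _
          rw [if_pos hl, Real.log_exp]
        rw [Finset.sum_congr rfl h5, Finset.sum_const, card_T2, nsmul_eq_mul, hD]
      rw [Finset.sum_congr rfl h3, Finset.sum_add_distrib, Finset.sum_const, nsmul_eq_mul, hcc,
        ← Finset.sum_add_sum_compl (T2 J) (fun l => Real.log (A t l)), h4]
      ring
    rw [h2, hsumA] at h1
    have h3 := hht t
    have h4 := hNC t
    have h5 := le_abs_self (Real.log C1)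
    have h6 : m' * γ * N t ≤ 1 / 8 * N t := mul_le_mul_of_nonneg_right hmγ hNpos
    nlinarith
  have key := subT (𝓞 K) (ph ψ) (pen _ _) cb sf comp ((m1 + 1) * Module.finrank ℤ (𝓞 K))
    (s * (m1 + 1)) (m1 * Module.finrank ℤ (𝓞 K))
    (Nat.mul_pos (Nat.succ_pos _) Module.finrank_pos)
    (Nat.mul_le_mul_right _ (Nat.le_succ _)) (Rt cj iK J S) (Mt K (m1 + 1)) (lamU U)
    ⟨hS, Rt_im ψ cj hcj iK hi J S, Mt_det, fun p l => by
      unfold lamU
      split_ifs
      · intro h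
        exact hU _ (sg_inj _ (by rw [h, map_zero]))
      · exact one_ne_zero⟩
    (n * c1 + c1 + 3) γ hc2 hγ0 N hN
    (fun t p => k t (finProdFinEquiv.symm p).2 (finProdFinEquiv.symm p).1)
    (fun t => Bt (uu U (k t))) hLat A hSize (fun t => cv (fun j => c t j * uu U (k t) j))
    (by
      intro t h
      apply hnz t
      have h1 : (fun j => c t j * uu U (k t) j) = 0 := by
        apply cv_inj
        rw [h]
        funext l
        unfold cv
        simp
      funext j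
      exact (mul_eq_zero.1 (congrFun h1 j)).resolve_right (uu_ne U hU (k t) j))
    hSol hVol (bV K m1) (bV_indep m1)
  obtain ⟨f, ⟨p, hp⟩, hfr⟩ := key
  refine ⟨f, ⟨(ec K m1 p).1.castSucc, (ec K m1 p).2, ?_⟩, hfr⟩
  rw [bV_apply] at hp
  exact sub_ne_zero.1 hp

end Pool.Agent.Y215.SK
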